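import Pool.Agent.K3h83.IN.Stm4
import Pool.Agent.K3h18.IN.Infl

/-!
# The character of `L` over a faithful character of the center
-/

set_option autoImplicit false
set_option linter.style.haveILetI false

open scoped BigOperators Classical

noncomputable section

namespace Pool.Agent.K3h57.IN

open Pool.Agent.Helper884 Pool.Agent.K3h3.KB Pool.Agent.K3h3.MK Pool.Agent.K3h83.IN
open Pool.Agent.H254R3.IN (IsIrr mem_Irr)
open IC (Irr)
open Representation

theorem t_G3 : G3 := by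
  intro q _ G _ _ L hL nu hnu
  haveI := Fintype.ofFinite G
  haveI : Fintype L := Fintype.ofFinite L
  haveI : Fintype (Subgroup.center G) := Fintype.ofFinite _
  let j : Subgroup.center G →* L := Subgroup.inclusion hL.le
  have hj : Function.Injective j := Subgroup.inclusion_injective _
  have hjG : ∀ z, ((j z : L) : G) = z := fun z => rfl
  have hjc : j.range ≤ Subgroup.center L := by
    rintro _ ⟨z, rfl⟩
    rw [Subgroup.mem_center_iff]
    intro g
    exact Subtype.ext (Subgroup.mem_center_iff.mp z.2 g)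
  let f : L → ℂ := fun l =>
    if h : (l : G) ∈ Subgroup.center G then ((nu ⟨l, h⟩ : ℂˣ) : ℂ) else 0
  have hfj : ∀ z, f (j z) = ((nu z : ℂˣ) : ℂ) := fun z => dif_pos z.2
  have hf0 : ∀ l : L, (l : G) ∉ Subgroup.center G → f l = 0 := fun l h => dif_neg h
  have hrange : ∀ l : L, l ∉ Set.range j → (l : G) ∉ Subgroup.center G := by
    intro l hl hc
    exact hl ⟨⟨l, hc⟩, Subtype.ext rfl⟩
  have hsum : ∀ g : L → ℂ, ∑ l, f l * g l =
      ∑ z : Subgroup.center G, ((nu z : ℂˣ) : ℂ) * g (j z) := by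
    intro g
    symm
    refine Fintype.sum_of_injective j hj _ _ (fun l hl => ?_) fun z => ?_
    · rw [hf0 l (hrange l hl), zero_mul]
    · rw [hfj]
  have hconj : ∀ (x g g' : G), x * g * x⁻¹ = g' → g ∈ Subgroup.center G → g' = g := by
    intro x g g' h hg
    rw [← h, Subgroup.mem_center_iff.mp hg x, mul_inv_cancel_right]
  have hconj' : ∀ (x g g' : G), x * g * x⁻¹ = g' → g ∉ Subgroup.center G →
      g' ∉ Subgroup.center G := by
    intro x g g' h hg hg'
    have h1 : x⁻¹ * g' * x⁻¹⁻¹ = g := by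
      rw [← h]
      group
    exact hg (by rw [hconj x⁻¹ g' g h1 hg']; exact hg')
  have hcl : IC.IsClass f := by
    intro g y
    by_cases hg : (g : G) ∈ Subgroup.center G
    · have h1 : y * g * y⁻¹ = g := Subtype.ext (hconj y g _ rfl hg)
      rw [h1]
    · rw [hf0 g hg, hf0 (y * g * y⁻¹) (hconj' y g _ rfl hg)]
  obtain ⟨χ, hχ, hne⟩ : ∃ χ ∈ Irr L, IC.B f χ ≠ 0 := by
    by_contra hcon
    push Not at hcon
    have h1 := congrFun (IC.expand f hcl) (j 1)
    rw [Finset.sum_congr rfl fun χ hχ => by rw [hcon χ hχ, zero_smul], Finset.sum_const_zero,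
      hfj, map_one, Units.val_one] at h1
    exact one_ne_zero h1
  have hχ' := mem_Irr.mp hχ
  obtain ⟨μ, hμ⟩ := Pool.Agent.K3h18.IN.central j hjc hχ'
  have hmunu : (fun a => ((nu a : ℂˣ) : ℂ)) = fun a => ((μ a : ℂˣ) : ℂ) := by
    by_contra hcon
    apply hne
    have h1 := IC.B_irr (Pool.Agent.K3h18.IN.lin nu) (Pool.Agent.K3h18.IN.lin μ)
    rw [if_neg hcon] at h1
    unfold IC.B at h1 ⊢
    rw [hsum fun l => χ l⁻¹]
    have h2 : ∑ z : Subgroup.center G, ((nu z : ℂˣ) : ℂ) * χ (j z)⁻¹ =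
        (∑ z : Subgroup.center G, ((nu z : ℂˣ) : ℂ) * ((μ z⁻¹ : ℂˣ) : ℂ)) * χ 1 := by
      rw [Finset.sum_mul]
      refine Finset.sum_congr rfl fun z _ => ?_
      have h3 := hμ z⁻¹ 1
      rw [mul_one, map_inv] at h3
      rw [h3, mul_assoc]
    rw [h2, (mul_eq_zero.mp h1).resolve_left (inv_ne_zero IC.cardG_ne), zero_mul, mul_zero]
  have hcen : ∀ z x, χ (j z * x) = ((nu z : ℂˣ) : ℂ) * χ x := by
    intro z x
    rw [hμ, congrFun hmunu z]
  have hoff : ∀ l : L, (l : G) ∉ Subgroup.center G → χ l = 0 := by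
    intro l hl
    obtain ⟨m, hm, hne2⟩ : ∃ m ∈ L, (l : G) * m ≠ m * l := by
      by_contra hcon
      push Not at hcon
      exact hl (hL.cen l l.2 hcon)
    have h1 := hcen ⟨m * l * m⁻¹ * (l : G)⁻¹, hL.com m hm l l.2⟩ l
    have h2 : j ⟨m * l * m⁻¹ * (l : G)⁻¹, hL.com m hm l l.2⟩ * l = ⟨m, hm⟩ * l * ⟨m, hm⟩⁻¹ := by
      apply Subtype.ext
      change m * l * m⁻¹ * (l : G)⁻¹ * l = m * l * m⁻¹
      rw [inv_mul_cancel_right]
    rw [h2, IC.IsIrrChar.isClass hχ' l ⟨m, hm⟩] at h1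
    by_contra hne3
    have h3 : ((nu ⟨m * l * m⁻¹ * (l : G)⁻¹, hL.com m hm l l.2⟩ : ℂˣ) : ℂ) = 1 := by
      apply mul_right_cancel₀ hne3
      rw [← h1, one_mul]
    have h4 : nu ⟨m * l * m⁻¹ * (l : G)⁻¹, hL.com m hm l l.2⟩ = nu 1 := by
      rw [map_one]
      exact Units.ext h3
    have h5 : m * l * m⁻¹ * (l : G)⁻¹ = 1 := congrArg Subtype.val (hnu h4)
    apply hne2
    rw [mul_inv_eq_one, mul_inv_eq_iff_eq_mul] at h5
    exact h5.symm
  have hχf : ∀ l, χ l = χ 1 * f l := by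
    intro l
    by_cases hl : (l : G) ∈ Subgroup.center G
    · have h1 : l = j ⟨l, hl⟩ := Subtype.ext rfl
      have h2 := hcen ⟨l, hl⟩ 1
      rw [mul_one, ← h1] at h2
      have h3 : f l = ((nu ⟨l, hl⟩ : ℂˣ) : ℂ) := dif_pos hl
      rw [h2, h3, mul_comm]
    · rw [hoff l hl, hf0 l hl, mul_zero]
  have hχ1 : χ 1 ≠ 0 := by
    rw [← ndeg_cast hχ']
    exact_mod_cast (ndeg_pos hχ').ne'
  have hdeg : (Nat.card (Subgroup.center G) : ℂ) * χ 1 ^ 2 = Nat.card L := by
    have h1 := IC.B_irr hχ' hχ'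
    rw [if_pos rfl] at h1
    unfold IC.B at h1
    have h2 : ∑ l, χ l * χ l⁻¹ = Nat.card (Subgroup.center G) * χ 1 ^ 2 := by
      have h3 : ∀ l, χ l * χ l⁻¹ = f l * (χ 1 * χ l⁻¹) := by
        intro l
        rw [hχf l]
        ring
      rw [Finset.sum_congr rfl fun l _ => h3 l, hsum fun l => χ 1 * χ l⁻¹]
      have h4 : ∀ z : Subgroup.center G, ((nu z : ℂˣ) : ℂ) * (χ 1 * χ (j z)⁻¹) = χ 1 ^ 2 := by
        intro z
        have h5 := hcen z⁻¹ 1
        rw [mul_one, map_inv, map_inv, Units.val_inv_eq_inv_val] at h5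
        have h6 : ((nu z : ℂˣ) : ℂ) ≠ 0 := Units.ne_zero _
        rw [h5]
        field_simp
      rw [Finset.sum_congr rfl fun z _ => h4 z, Finset.sum_const, Finset.card_univ, nsmul_eq_mul,
        Nat.card_eq_fintype_card]
    rw [h2] at h1
    have h3 : (Nat.card L : ℂ) ≠ 0 := IC.cardG_ne
    field_simp at h1
    exact h1
  have hfix : ∀ x : G, fixes L.subtype χ x := by
    intro x l l' h
    have h' : x * (l : G) * x⁻¹ = (l' : G) := h
    by_cases hl : (l : G) ∈ Subgroup.center G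
    · have h1 : l' = l := Subtype.ext (hconj x l l' h' hl)
      rw [h1]
    · rw [hoff l hl, hoff l' (hconj' x l l' h' hl)]
  have hrel : (ndeg χ) ^ 2 = (Subgroup.center G).relIndex L := by
    have h1 : Nat.card (Subgroup.center G) * (Subgroup.center G).relIndex L = Nat.card L := by
      have h2 := Subgroup.card_mul_index ((Subgroup.center G).subgroupOf L)
      rw [Nat.card_congr (Subgroup.subgroupOfEquivOfLe hL.le).toEquiv] at h2
      exact h2
    have h2 : Nat.card (Subgroup.center G) * (ndeg χ) ^ 2 = Nat.card L := by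
      rw [← ndeg_cast hχ'] at hdeg
      exact_mod_cast hdeg
    exact Nat.eq_of_mul_eq_mul_left Nat.card_pos (h2.trans h1.symm)
  have hwo : ∀ (R : Type) [CommRing R] (w : ℕ →* R),
      wo w (Subgroup.center G).subtype (fun a => ((nu a : ℂˣ) : ℂ)) = wo w L.subtype χ := by
    intro R _ w
    rw [wo_eq, wo_eq]
    congr 1
    refine Finset.filter_congr fun ψ _ => ?_
    rw [ov_iff, ov_iff]
    have h1 : IC.B (fun l : L => ψ (L.subtype l)) χ =
        (Nat.card L : ℂ)⁻¹ * χ 1 * Nat.card (Subgroup.center G) *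
          IC.B (fun z : Subgroup.center G => ψ ((Subgroup.center G).subtype z))
            (fun a => ((nu a : ℂˣ) : ℂ)) := by
      rw [IC.B_comm]
      rw [IC.B_comm (fun z : Subgroup.center G => ψ ((Subgroup.center G).subtype z))]
      unfold IC.B
      have h3 : ∀ l : L, χ l * ψ (L.subtype l⁻¹) = f l * (χ 1 * ψ (L.subtype l⁻¹)) := by
        intro l
        rw [hχf l]
        ring
      rw [Finset.sum_congr rfl fun l _ => h3 l, hsum fun l => χ 1 * ψ (L.subtype l⁻¹)]
      have h4 : ∀ z : Subgroup.center G,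
          ((nu z : ℂˣ) : ℂ) * (χ 1 * ψ (L.subtype (j z)⁻¹)) =
            χ 1 * (((nu z : ℂˣ) : ℂ) * ψ ((Subgroup.center G).subtype z⁻¹)) := by
        intro z
        have h5 : L.subtype (j z)⁻¹ = (Subgroup.center G).subtype z⁻¹ := rfl
        rw [h5]
        ring
      rw [Finset.sum_congr rfl fun z _ => h4 z, ← Finset.mul_sum]
      have h6 : (Nat.card (Subgroup.center G) : ℂ) ≠ 0 := IC.cardG_ne
      field_simp
    rw [h1]
    have h2 : (Nat.card L : ℂ)⁻¹ * χ 1 * Nat.card (Subgroup.center G) ≠ 0 :=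
      mul_ne_zero (mul_ne_zero (inv_ne_zero IC.cardG_ne) hχ1) IC.cardG_ne
    constructor
    · intro h
      exact mul_ne_zero h2 h
    · intro h h3
      rw [h3, mul_zero] at h
      exact h rfl
  have h0 := hχ'
  obtain ⟨V, i1, i2, i3, σ, hirr, rfl⟩ := hχ'
  refine ⟨V, i1, i2, i3, σ, hirr, ?_, hrel, hfix, hwo⟩
  intro z v
  obtain ⟨c, hc⟩ : ∃ c : ℂ, σ (j z) = c • LinearMap.id := by
    refine Pool.Agent.K3h3.KT.schur' (MonoidHom.id L) σ h0 (σ (j z)) fun n => ?_
    have h1 : j z ∈ Subgroup.center L := hjc ⟨z, rfl⟩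
    have h2 := Subgroup.mem_center_iff.mp h1 n
    rw [MonoidHom.id_apply, ← Module.End.mul_eq_comp, ← Module.End.mul_eq_comp, ← map_mul,
      ← map_mul, h2]
  have h1 : σ.character (j z) = c * σ.character 1 := by
    unfold Representation.character
    rw [hc, map_smul, smul_eq_mul, map_one]
    rfl
  have h2 := hcen z 1
  rw [mul_one, h1] at h2
  have h3 : c = ((nu z : ℂˣ) : ℂ) := mul_right_cancel₀ hχ1 h2
  change σ (j z) v = _
  rw [hc, h3]
  rfl

end Pool.Agent.K3h57.IN
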