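import Pool.Agent.K3h83.IN.Stm2
import Pool.Agent.K3h18.IN.Infl

/-!
# Changing the central extension
-/

set_option autoImplicit false
set_option linter.style.haveILetI false

open scoped BigOperators Classical

noncomputable section

namespace Pool.Agent.K3h57.IN

open Pool.Agent.Helper884 Pool.Agent.K3h3.KB Pool.Agent.K3h3.MK Pool.Agent.K3h83.IN
open Pool.Agent.H254R3.IN (IsIrr mem_Irr)
open IC (Irr)

/-- the assembly of a character triple from a central extension (compare `K3h85/IN/Triple`) -/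
theorem asm (hb : Pool.Agent.K3h83.IN.S3b) (L G Q : Type) [Group L] [Finite L] [Group G]
    [Finite G] [Group Q] (j : L →* G) (hj : Function.Injective j) (θ : L → ℂ) (hθ : IsIrr θ)
    (r : G →* Q) (hr : Function.Surjective r) (hrk : r.ker = j.range)
    (E : Type) [Group E] [Finite E] (π : E →* G) (s : L →* E) (V : Type)
    [AddCommGroup V] [Module ℂ V] [FiniteDimensional ℂ V] (ρ : Representation ℂ E V)
    (lam0 : π.ker →* ℂˣ)
    (hπ : Function.Surjective π) (hs : ∀ l, π (s l) = j l) (hsn : s.range.Normal)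
    (hcen : π.ker ≤ Subgroup.center E) (hcyc : IsCyclic π.ker)
    (hchar : ∀ l, ρ.character (s l) = θ l)
    (hlam : ∀ (a : π.ker) (v : V), ρ a v = (((lam0 a)⁻¹ : ℂˣ) : ℂ) • v) :
    ∃ (S : Type) (_ : Group S) (_ : Finite S) (q : S →* Q) (lam : q.ker →* ℂˣ),
      Function.Surjective q ∧ q.ker ≤ Subgroup.center S ∧ IsCyclic q.ker ∧
      Nat.card q.ker = Nat.card π.ker ∧
      ∀ (R : Type) [CommRing R] (w : ℕ →* R) (X : Subgroup G) (jX : L →* X)
        (_ : ∀ l, (jX l : G) = j l),
        wo w jX θ = w (ndeg θ) * wo w (Subgroup.inclusion (kle q (X.map r)))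
          fun a => ((lam a : ℂˣ) : ℂ) := by
  haveI := hsn
  let t : E →* E ⧸ s.range := QuotientGroup.mk' s.range
  have ht : Function.Surjective t := QuotientGroup.mk'_surjective _
  have htk : t.ker = s.range := QuotientGroup.ker_mk' _
  have hrj : ∀ l, r (j l) = 1 := fun l => by
    have h1 : j l ∈ r.ker := by
      rw [hrk]
      exact ⟨l, rfl⟩
    exact h1
  let q : E ⧸ s.range →* Q := QuotientGroup.lift s.range (r.comp π) (by
    rintro _ ⟨l, rfl⟩
    change r (π (s l)) = 1
    rw [hs, hrj])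
  have hq : ∀ e, q (t e) = r (π e) := fun e => rfl
  have hqs : Function.Surjective q := by
    intro y
    obtain ⟨g, rfl⟩ := hr y
    obtain ⟨e, rfl⟩ := hπ g
    exact ⟨t e, hq e⟩
  have hker : ∀ y : E ⧸ s.range, q y = 1 → ∃ a : π.ker, t a = y := by
    intro y hy
    obtain ⟨e, rfl⟩ := ht y
    rw [hq] at hy
    have h1 : π e ∈ j.range := by
      rw [← hrk]
      exact hy
    obtain ⟨l, hl⟩ := h1
    refine ⟨⟨e * (s l)⁻¹, ?_⟩, ?_⟩
    · rw [MonoidHom.mem_ker, map_mul, map_inv, hs, hl, mul_inv_cancel]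
    · have h2 : t (s l) = 1 := by
        have : s l ∈ t.ker := by
          rw [htk]
          exact ⟨l, rfl⟩
        exact this
      change t (e * (s l)⁻¹) = t e
      rw [map_mul, map_inv, h2, inv_one, mul_one]
  have hinj : ∀ a : π.ker, t a = 1 → a = 1 := by
    intro a h1
    have h2 : (a : E) ∈ s.range := by
      rw [← htk]
      exact h1
    obtain ⟨l, hl⟩ := h2
    have h3 : π a = 1 := a.2
    rw [← hl, hs] at h3
    have h4 : l = 1 := hj (by rw [h3, map_one])
    apply Subtype.ext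
    rw [← hl, h4, map_one]
    rfl
  let f0 : π.ker →* q.ker := (t.comp π.ker.subtype).codRestrict q.ker (by
    intro a
    change q (t a) = 1
    rw [hq, (MonoidHom.mem_ker).mp a.2, map_one])
  have hf0 : Function.Bijective f0 := by
    constructor
    · rw [injective_iff_map_eq_one]
      intro a h1
      exact hinj a (congrArg Subtype.val h1)
    · intro y
      obtain ⟨a, h1⟩ := hker y y.2
      exact ⟨a, Subtype.ext h1⟩
  let f : π.ker ≃* q.ker := MulEquiv.ofBijective f0 hf0
  have hf : ∀ a, ((f a : q.ker) : E ⧸ s.range) = t a := fun a => rfl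
  refine ⟨E ⧸ s.range, inferInstance, inferInstance, q, lam0.comp f.symm.toMonoidHom, hqs, ?_, ?_, ?_, ?_⟩
  · intro y hy
    obtain ⟨a, rfl⟩ := hker y hy
    rw [Subgroup.mem_center_iff]
    intro z
    obtain ⟨e, rfl⟩ := ht z
    rw [← map_mul, ← map_mul, (Subgroup.mem_center_iff.mp (hcen a.2)) e]
  · haveI := hcyc
    exact isCyclic_of_surjective f.toMonoidHom f.surjective
  · exact (Nat.card_congr f.toEquiv).symm
  · intro R _ w X jX hjX
    -- the groups over `X`
    have hsX : ∀ l, s l ∈ X.comap π := fun l => by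
      rw [Subgroup.mem_comap, hs, ← hjX]
      exact (jX l).2
    let πX : X.comap π →* X := π.subgroupComap X
    have hπX : ∀ e, ((πX e : X) : G) = π e := fun e => rfl
    let sX : L →* X.comap π := s.codRestrict (X.comap π) hsX
    have hsX' : ∀ l, ((sX l : X.comap π) : E) = s l := fun l => rfl
    have htX0 : ∀ e : X.comap π, t e ∈ (X.map r).comap q := fun e => by
      rw [Subgroup.mem_comap, hq]
      exact ⟨π e, e.2, rfl⟩
    let tX : X.comap π →* (X.map r).comap q :=
      (t.comp (X.comap π).subtype).codRestrict ((X.map r).comap q) htX0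
    have htX : ∀ e, ((tX e : (X.map r).comap q) : E ⧸ s.range) = t e := fun e => rfl
    have hj1 : ∀ l, j l ∈ X := fun l => by
      rw [← hjX]
      exact (jX l).2
    have hπXs : Function.Surjective πX := by
      rintro ⟨x, hx⟩
      obtain ⟨e, rfl⟩ := hπ x
      exact ⟨⟨e, hx⟩, rfl⟩
    have hπXc : πX.ker ≤ Subgroup.center (X.comap π) := by
      intro a h1
      have h2 : (a : E) ∈ π.ker := by
        rw [MonoidHom.mem_ker, ← hπX, (MonoidHom.mem_ker).mp h1]
        rfl
      rw [Subgroup.mem_center_iff]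
      intro e
      apply Subtype.ext
      exact (Subgroup.mem_center_iff.mp (hcen h2)) e
    have hcomp : πX.comp sX = jX := by
      ext l
      change π (s l) = (jX l : G)
      rw [hs, hjX]
    have hinjX : Function.Injective fun l => πX (sX l) := by
      intro l l' h1
      apply hj
      have h2 : π (s l) = π (s l') := congrArg Subtype.val h1
      rwa [hs, hs] at h2
    have htXs : Function.Surjective tX := by
      rintro ⟨y, hy⟩
      obtain ⟨e, rfl⟩ := ht y
      obtain ⟨x, hx, h1⟩ := hy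
      rw [hq] at h1
      have h2 : x⁻¹ * π e ∈ j.range := by
        rw [← hrk, MonoidHom.mem_ker, map_mul, map_inv, h1, inv_mul_cancel]
      obtain ⟨l, hl⟩ := h2
      have h3 : π e ∈ X := by
        have : π e = x * j l := by
          rw [hl, mul_inv_cancel_left]
        rw [this]
        exact X.mul_mem hx (hj1 l)
      exact ⟨⟨e, h3⟩, rfl⟩
    have htXk : tX.ker = sX.range := by
      ext e
      constructor
      · intro h1
        have h2 : (e : E) ∈ t.ker := congrArg Subtype.val ((MonoidHom.mem_ker).mp h1)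
        rw [htk] at h2
        obtain ⟨l, hl⟩ := h2
        exact ⟨l, Subtype.ext hl⟩
      · rintro ⟨l, rfl⟩
        rw [MonoidHom.mem_ker]
        apply Subtype.ext
        change t (s l) = 1
        have : s l ∈ t.ker := by
          rw [htk]
          exact ⟨l, rfl⟩
        exact this
    let ρX : Representation ℂ (X.comap π) V := ρ.comp (X.comap π).subtype
    have hk : ∀ a : πX.ker, ((a : X.comap π) : E) ∈ π.ker := fun a => by
      rw [MonoidHom.mem_ker, ← hπX, (MonoidHom.mem_ker).mp a.2]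
      rfl
    let κ : πX.ker →* π.ker :=
      ((X.comap π).subtype.comp πX.ker.subtype).codRestrict π.ker hk
    have hκb : Function.Bijective κ := by
      constructor
      · intro a b h1
        have h2 : ((κ a : π.ker) : E) = κ b := by rw [h1]
        apply Subtype.ext
        apply Subtype.ext
        exact h2
      · rintro ⟨a, h1⟩
        have h2 : a ∈ X.comap π := by
          rw [Subgroup.mem_comap, (MonoidHom.mem_ker).mp h1]
          exact X.one_mem
        refine ⟨⟨⟨a, h2⟩, ?_⟩, rfl⟩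
        rw [MonoidHom.mem_ker]
        apply Subtype.ext
        exact h1
    have key := hb R w L (X.comap π) X ((X.map r).comap q) πX hπXs hπXc sX hinjX tX htXs htXk V ρX
      θ hθ (fun l => hchar l) (lam0.comp κ) (fun a v => hlam (κ a) v)
    rw [hcomp] at key
    rw [key]
    congr 1
    refine wo_congr w ((MulEquiv.ofBijective κ hκb).trans f)
      (MulEquiv.refl ((X.map r).comap q : Subgroup (E ⧸ s.range))) _ _ (fun a => ?_) _ _ fun a => ?_
    · apply Subtype.ext
      rfl
    · change ((lam0 (κ a) : ℂˣ) : ℂ) = ((lam0 (f.symm (f (κ a))) : ℂˣ) : ℂ)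
      rw [f.symm_apply_apply]

/-- the group of the pairs `(g, c)` with `f g * c ^ e = 1` -/
def EG {G : Type} [Group G] (f : G →* ℂˣ) (e : ℕ) : Subgroup (G × ℂˣ) where
  carrier := {x | f x.1 * x.2 ^ e = 1}
  one_mem' := by
    change f 1 * 1 ^ e = 1
    rw [map_one, one_pow, one_mul]
  mul_mem' := by
    intro a b ha hb
    change f a.1 * a.2 ^ e = 1 at ha
    change f b.1 * b.2 ^ e = 1 at hb
    change f (a.1 * b.1) * (a.2 * b.2) ^ e = 1
    rw [map_mul, mul_pow, mul_mul_mul_comm, ha, hb, one_mul]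
  inv_mem' := by
    intro a ha
    change f a.1 * a.2 ^ e = 1 at ha
    change f a.1⁻¹ * (a.2⁻¹) ^ e = 1
    rw [map_inv, inv_pow, ← mul_inv, ha, inv_one]

theorem mem_EG {G : Type} [Group G] (f : G →* ℂˣ) (e : ℕ) (x : G × ℂˣ) :
    x ∈ EG f e ↔ f x.1 * x.2 ^ e = 1 := Iff.rfl

theorem finite_EG {G : Type} [Group G] [Finite G] (f : G →* ℂˣ) (e : ℕ) (he : 0 < e) :
    Finite (EG f e) := by
  haveI : NeZero (e * Nat.card G) := ⟨(Nat.mul_pos he Nat.card_pos).ne'⟩
  have h1 : ∀ x : EG f e, (x : G × ℂˣ).2 ∈ rootsOfUnity (e * Nat.card G) ℂ := by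
    intro x
    have h2 := (mem_EG f e x).mp x.2
    rw [mem_rootsOfUnity, pow_mul]
    have h3 : (x : G × ℂˣ).2 ^ e = (f (x : G × ℂˣ).1)⁻¹ := by
      rw [eq_comm, inv_eq_iff_mul_eq_one, h2]
    rw [h3, inv_pow, ← map_pow, pow_card_eq_one', map_one, inv_one]
  refine Finite.of_injective (fun x : EG f e =>
    ((x : G × ℂˣ).1, (⟨(x : G × ℂˣ).2, h1 x⟩ : rootsOfUnity (e * Nat.card G) ℂ))) ?_
  intro x y hxy
  have h2 := congrArg Prod.fst hxy
  have h3 := congrArg (fun z : G × rootsOfUnity (e * Nat.card G) ℂ => (z.2 : ℂˣ)) hxy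
  exact Subtype.ext (Prod.ext h2 h3)

theorem t_S14 : S14 := by
  intro G Q _ _ _ Z hZ nu e he f hf r hr hrk
  haveI : NeZero e := ⟨he.ne'⟩
  haveI := finite_EG f e he
  haveI := Fintype.ofFinite Z
  let π : EG f e →* G := (MonoidHom.fst G ℂˣ).comp (EG f e).subtype
  let γ : EG f e →* ℂˣ := (MonoidHom.snd G ℂˣ).comp (EG f e).subtype
  have hpg : ∀ x y : EG f e, π x = π y → γ x = γ y → x = y := fun x y h1 h2 =>
    Subtype.ext (Prod.ext h1 h2)
  have hrel : ∀ x : EG f e, f (π x) * γ x ^ e = 1 := fun x => (mem_EG f e x).mp x.2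
  let s0 : Z →* G × ℂˣ := Z.subtype.prod nu⁻¹
  have hs0 : ∀ z, s0 z ∈ EG f e := by
    intro z
    rw [mem_EG]
    change f z * (nu z)⁻¹ ^ e = 1
    rw [hf, inv_pow, mul_inv_cancel]
  let s : Z →* EG f e := s0.codRestrict (EG f e) hs0
  have hsπ : ∀ z, π (s z) = z := fun z => rfl
  have hsγ : ∀ z, γ (s z) = (nu z)⁻¹ := fun z => rfl
  have hπ : Function.Surjective π := by
    intro g
    obtain ⟨c, hc⟩ := IsAlgClosed.exists_pow_nat_eq (((f g)⁻¹ : ℂˣ) : ℂ) he
    have hc0 : c ≠ 0 := by
      rintro rfl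
      rw [zero_pow he.ne'] at hc
      exact Units.ne_zero _ hc.symm
    have h1 : (g, Units.mk0 c hc0) ∈ EG f e := by
      rw [mem_EG]
      have h2 : Units.mk0 c hc0 ^ e = (f g)⁻¹ := by
        apply Units.ext
        rw [Units.val_pow_eq_pow_val, Units.val_mk0, hc]
      change f g * Units.mk0 c hc0 ^ e = 1
      rw [h2, mul_inv_cancel]
    exact ⟨⟨_, h1⟩, rfl⟩
  have hcen : π.ker ≤ Subgroup.center (EG f e) := by
    intro a ha
    rw [Subgroup.mem_center_iff]
    intro x
    apply hpg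
    · rw [map_mul, map_mul, (MonoidHom.mem_ker).mp ha, one_mul, mul_one]
    · rw [map_mul, map_mul, mul_comm]
  have hscen : s.range ≤ Subgroup.center (EG f e) := by
    rintro _ ⟨z, rfl⟩
    rw [Subgroup.mem_center_iff]
    intro x
    apply hpg
    · rw [map_mul, map_mul, hsπ, Subgroup.mem_center_iff.mp (hZ z.2)]
    · rw [map_mul, map_mul, mul_comm]
  have hsn : s.range.Normal := by
    constructor
    intro a ha x
    rw [Subgroup.mem_center_iff.mp (hscen ha) x, mul_inv_cancel_right]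
    exact ha
  let lam0 : π.ker →* ℂˣ := γ.comp π.ker.subtype
  have hlam0 : Function.Injective lam0 := by
    intro a b hab
    apply Subtype.ext
    apply hpg
    · rw [(MonoidHom.mem_ker).mp a.2, (MonoidHom.mem_ker).mp b.2]
    · exact hab
  have hcyc : IsCyclic π.ker :=
    isCyclic_of_injective_ringHom ((Units.coeHom ℂ).comp lam0)
      (Units.val_injective.comp hlam0)
  have hroot : ∀ a : π.ker, lam0 a ∈ rootsOfUnity e ℂ := by
    intro a
    have h1 := hrel a
    rw [(MonoidHom.mem_ker).mp a.2, map_one, one_mul] at h1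
    rw [mem_rootsOfUnity]
    exact h1
  have hcard : Nat.card π.ker ≤ e := by
    have h1 : Nat.card π.ker ≤ Nat.card (rootsOfUnity e ℂ) :=
      Nat.card_le_card_of_injective (fun a => (⟨lam0 a, hroot a⟩ : rootsOfUnity e ℂ))
        (fun a b hab => hlam0 (congrArg Subtype.val hab))
    exact h1.trans (card_rootsOfUnity ℂ e)
  let ρ : Representation ℂ (EG f e) ℂ :=
    { toFun := fun x => ((((γ x)⁻¹ : ℂˣ) : ℂ)) • (LinearMap.id : ℂ →ₗ[ℂ] ℂ)
      map_one' := by
        rw [map_one, inv_one, Units.val_one, one_smul]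
        rfl
      map_mul' := by
        intro x y
        apply LinearMap.ext
        intro v
        rw [map_mul, mul_inv]
        change (((γ x)⁻¹ * (γ y)⁻¹ : ℂˣ) : ℂ) • v = (((γ x)⁻¹ : ℂˣ) : ℂ) • ((((γ y)⁻¹ : ℂˣ) : ℂ) • v)
        rw [Units.val_mul, smul_smul] }
  have hρ : ∀ x v, ρ x v = (((γ x)⁻¹ : ℂˣ) : ℂ) • v := fun x v => rfl
  have hρc : ∀ x, ρ.character x = (((γ x)⁻¹ : ℂˣ) : ℂ) := by
    intro x
    change LinearMap.trace ℂ ℂ ((((γ x)⁻¹ : ℂˣ) : ℂ) • (LinearMap.id : ℂ →ₗ[ℂ] ℂ)) = _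
    rw [map_smul, LinearMap.trace_id]
    simp
  have hirr : IsIrr (fun a : Z => ((nu a : ℂˣ) : ℂ)) := Pool.Agent.K3h18.IN.lin nu
  obtain ⟨S, iS1, iS2, q, lam, h1, h2, h3, h4, h5⟩ := asm Pool.Agent.K3h18.IN.t_S3b Z G Q Z.subtype
    Subtype.coe_injective (fun a : Z => ((nu a : ℂˣ) : ℂ)) hirr r hr
    (by rw [hrk, Subgroup.range_subtype]) (EG f e) π s ℂ ρ lam0 hπ (fun l => rfl) hsn hcen hcyc
    (fun l => by rw [hρc, hsγ, inv_inv]) (fun a v => hρ a v)
  refine ⟨S, iS1, iS2, q, lam, h1, h2, h3, h4.trans_le hcard, ?_⟩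
  intro R _ w X hX
  have h6 := h5 R w X (Subgroup.inclusion hX) (fun l => rfl)
  rw [h6]
  have h7 : ndeg (fun a : Z => ((nu a : ℂˣ) : ℂ)) = 1 := by
    apply ndeg_eq
    rw [map_one, Units.val_one, Nat.cast_one]
  rw [h7, map_one, one_mul]

end Pool.Agent.K3h57.IN
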