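import Pool.Agent.K3h83.IN.Stm3
import Pool.Agent.K3h18.IN.Infl

/-!
# Characters of a direct product with a group of prime order with values of absolute value one
-/

set_option autoImplicit false
set_option linter.style.haveILetI false

open scoped BigOperators Classical

noncomputable section

namespace Pool.Agent.K3h57.IN

open Pool.Agent.Helper884 Pool.Agent.K3h3.KB Pool.Agent.K3h3.MK Pool.Agent.K3h83.IN
open Pool.Agent.H254R3.IN (IsIrr mem_Irr)
open Pool.Agent.Q90.WR (B_nat deg_pos)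
open IC (Irr)
open Representation

theorem gap {ι : Type} (S : Finset ι) (n : ι → ℤ) (h : ¬ ∀ i ∈ S, ∀ j ∈ S, n i = n j) :
    (S.card : ℤ) - 1 ≤ S.card * ∑ i ∈ S, n i ^ 2 - (∑ i ∈ S, n i) ^ 2 := by
  push Not at h
  obtain ⟨i, hi, j, hj, hij⟩ := h
  obtain ⟨v, hv⟩ : ∃ v, n i = v := ⟨_, rfl⟩
  have hA : 0 < (S.filter fun k => n k = v).card :=
    Finset.card_pos.mpr ⟨i, Finset.mem_filter.mpr ⟨hi, hv⟩⟩
  have hB : 0 < (S.filter fun k => ¬ n k = v).card :=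
    Finset.card_pos.mpr ⟨j, Finset.mem_filter.mpr ⟨hj, fun h => hij (hv.trans h.symm)⟩⟩
  have hAB := Finset.card_filter_add_card_filter_not (s := S) (fun k => n k = v)
  set a := (S.filter fun k => n k = v).card with ha
  set b := (S.filter fun k => ¬ n k = v).card with hb
  have h1 : (S.card : ℤ) * ∑ i ∈ S, n i ^ 2 - (∑ i ∈ S, n i) ^ 2 =
      S.card * ∑ i ∈ S, (n i - v) ^ 2 - (∑ i ∈ S, (n i - v)) ^ 2 := by
    have e1 : ∑ i ∈ S, (n i - v) ^ 2 = ∑ i ∈ S, n i ^ 2 - 2 * v * ∑ i ∈ S, n i + S.card * v ^ 2 := by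
      rw [Finset.mul_sum, ← Finset.sum_sub_distrib, ← nsmul_eq_mul, ← Finset.sum_const,
        ← Finset.sum_add_distrib]
      exact Finset.sum_congr rfl fun k _ => by ring
    have e2 : ∑ i ∈ S, (n i - v) = ∑ i ∈ S, n i - S.card * v := by
      rw [Finset.sum_sub_distrib, Finset.sum_const, nsmul_eq_mul]
    rw [e1, e2]
    ring
  have h2 : ∑ i ∈ S, (n i - v) ^ 2 = ∑ i ∈ S.filter (fun k => ¬ n k = v), (n i - v) ^ 2 := by
    symm
    refine Finset.sum_subset (Finset.filter_subset _ _) fun k hk hk' => ?_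
    have : n k = v := by
      by_contra hne
      exact hk' (Finset.mem_filter.mpr ⟨hk, hne⟩)
    rw [this, sub_self, zero_pow two_ne_zero]
  have h3 : ∑ i ∈ S, (n i - v) = ∑ i ∈ S.filter (fun k => ¬ n k = v), (n i - v) := by
    symm
    refine Finset.sum_subset (Finset.filter_subset _ _) fun k hk hk' => ?_
    have : n k = v := by
      by_contra hne
      exact hk' (Finset.mem_filter.mpr ⟨hk, hne⟩)
    rw [this, sub_self]
  have h4 := sq_sum_le_card_mul_sum_sq (s := S.filter fun k => ¬ n k = v)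
    (f := fun k => n k - v)
  have h5 : (b : ℤ) ≤ ∑ i ∈ S.filter (fun k => ¬ n k = v), (n i - v) ^ 2 := by
    rw [hb, Finset.card_eq_sum_ones, Nat.cast_sum]
    refine Finset.sum_le_sum fun k hk => ?_
    have hk' := (Finset.mem_filter.mp hk).2
    have h6 : n k - v ≠ 0 := sub_ne_zero.mpr hk'
    have h7 : 0 < (n k - v) ^ 2 := by positivity
    rw [Nat.cast_one]
    omega
  rw [h1, h2, h3]
  rw [← hb] at h4
  set Q := ∑ i ∈ S.filter (fun k => ¬ n k = v), (n i - v) ^ 2 with hQ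
  have h6 : (S.card : ℤ) = a + b := by exact_mod_cast hAB.symm
  rw [h6]
  have ha' : (1 : ℤ) ≤ a := by exact_mod_cast hA
  have hb' : (1 : ℤ) ≤ b := by exact_mod_cast hB
  nlinarith [mul_le_mul_of_nonneg_left h5 (by linarith : (0 : ℤ) ≤ a),
    mul_nonneg (by linarith : (0 : ℤ) ≤ a - 1) (by linarith : (0 : ℤ) ≤ (b : ℤ) - 1)]

theorem gap0 {ι : Type} (S : Finset ι) (n : ι → ℤ) (h : ∀ i ∈ S, ∀ j ∈ S, n i = n j) :
    (S.card : ℤ) * ∑ i ∈ S, n i ^ 2 - (∑ i ∈ S, n i) ^ 2 = 0 := by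
  rcases S.eq_empty_or_nonempty with rfl | ⟨k, hk⟩
  · simp
  · rw [Finset.sum_congr rfl fun i hi => by rw [h i hi k hk],
      Finset.sum_congr (f := n) rfl fun i hi => h i hi k hk, Finset.sum_const, Finset.sum_const,
      nsmul_eq_mul, nsmul_eq_mul]
    ring

/-- irreducible characters of a commutative group are linear -/
theorem irr_one {C : Type} [Group C] [Fintype C] (hcomm : ∀ a b : C, a * b = b * a) {μ : C → ℂ}
    (hμ : IsIrr μ) : μ 1 = 1 := by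
  obtain ⟨l, hl⟩ := Pool.Agent.K3h18.IN.central (MonoidHom.id C) (by
    intro a _
    rw [Subgroup.mem_center_iff]
    exact fun g => hcomm g a) hμ
  have h1 : μ = μ 1 • fun a => ((l a : ℂˣ) : ℂ) := by
    funext a
    have := hl a 1
    rw [MonoidHom.id_apply, mul_one] at this
    rw [this, Pi.smul_apply, smul_eq_mul, mul_comm]
  have hl' := Pool.Agent.K3h18.IN.lin l
  have hd : μ 1 ≠ 0 := by
    rw [← ndeg_cast hμ]
    exact_mod_cast (ndeg_pos hμ).ne'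
  have h2 : IC.B μ (fun a => ((l a : ℂˣ) : ℂ)) ≠ 0 := by
    rw [h1, IC.B_smul_left, IC.B_irr hl' hl', if_pos rfl, mul_one]
    exact hd
  have h3 : μ = fun a => ((l a : ℂˣ) : ℂ) := by
    by_contra hne
    rw [IC.B_irr hμ hl', if_neg hne] at h2
    exact h2 rfl
  rw [h3]
  simp

/-- a character of degree one is a homomorphism -/
theorem lin_hom {Y : Type} [Group Y] {ψ : Y → ℂ} (hψ : IsIrr ψ) (h1 : ψ 1 = 1) :
    ∃ l : Y →* ℂˣ, ∀ y, ψ y = ((l y : ℂˣ) : ℂ) := by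
  obtain ⟨V, _, _, _, ρ, _, rfl⟩ := hψ
  rw [char_one] at h1
  have hV : Module.finrank ℂ V = 1 := by exact_mod_cast h1
  let b : Module.Basis (Fin 1) ℂ V := Module.finBasisOfFinrankEq ℂ V hV
  let f : Y →* ℂ := (LinearMap.det : (V →ₗ[ℂ] V) →* ℂ).comp ρ
  refine ⟨f.toHomUnits, fun s => ?_⟩
  rw [MonoidHom.coe_toHomUnits]
  change LinearMap.trace ℂ V (ρ s) = LinearMap.det (ρ s)
  rw [← LinearMap.det_toMatrix b, Matrix.det_fin_one, LinearMap.trace_eq_matrix_trace ℂ b,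
    Matrix.trace_fin_one]

theorem t_T9 : T9 := by
  intro p _ C Y V _ _ _ _ _ _ _ ρ hC h
  haveI := Fintype.ofFinite C
  haveI := Fintype.ofFinite Y
  have hp : p.Prime := Fact.out
  have hp0 : (p : ℂ) ≠ 0 := by exact_mod_cast hp.ne_zero
  have hcomm : ∀ a b : C, a * b = b * a := by
    haveI : IsCyclic C := isCyclic_of_prime_card hC
    intro a b
    exact (IsCyclic.isMulCommutative (α := C)).is_comm.comm a b
  have hclC : ∀ f : C → ℂ, IC.IsClass f := by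
    intro f g y
    rw [hcomm y g, mul_inv_cancel_right]
  -- the characters of `C`
  have hreg : ∀ c : C, ∑ μ ∈ Irr C, μ c = if c = 1 then (p : ℂ) else 0 := by
    intro c
    have h1 := Pool.Agent.K3h3.KT.reg c
    rw [hC] at h1
    rw [← h1]
    refine Finset.sum_congr rfl fun μ hμ => ?_
    rw [irr_one hcomm (mem_Irr.mp hμ), one_mul]
  have hcardI : (Irr C).card = p := by
    have h1 := hreg 1
    rw [if_pos rfl, Finset.sum_congr rfl fun μ hμ => irr_one hcomm (mem_Irr.mp hμ),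
      Finset.sum_const, nsmul_eq_mul, mul_one] at h1
    exact_mod_cast h1
  -- the coefficients
  let F : C → Y → ℂ := fun c y => ρ.character (c, y)
  let d : (Y → ℂ) → C → ℂ := fun ψ c => IC.B (F c) ψ
  have hclY : ∀ c, IC.IsClass (F c) := by
    intro c g y
    have h1 := IC.isClass_char ρ (c, g) (1, y)
    simp only [Prod.mk_mul_mk, Prod.inv_mk, inv_one, one_mul, mul_one] at h1
    exact h1
  have hexpY : ∀ c y, ρ.character (c, y) = ∑ ψ ∈ Irr Y, d ψ c * ψ y := by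
    intro c y
    have h1 := congrFun (IC.expand (F c) (hclY c)) y
    rw [Finset.sum_apply] at h1
    exact h1
  have hnat : ∀ ψ ∈ Irr Y, ∀ μ ∈ Irr C, ∃ n : ℕ, IC.B (d ψ) μ = n := by
    intro ψ hψ μ hμ
    obtain ⟨V₁, _, _, _, ρ₁, _, e1⟩ := mem_Irr.mp hμ
    obtain ⟨V₂, _, _, _, ρ₂, _, e2⟩ := mem_Irr.mp hψ
    obtain ⟨n, hn⟩ := B_nat ρ (Representation.tprod (ρ₁.comp (MonoidHom.fst C Y))
      (ρ₂.comp (MonoidHom.snd C Y)))
    refine ⟨n, ?_⟩
    have h3 : (Representation.tprod (ρ₁.comp (MonoidHom.fst C Y))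
        (ρ₂.comp (MonoidHom.snd C Y))).character = fun x : C × Y => μ x.1 * ψ x.2 := by
      rw [char_tensor, e1, e2]
      rfl
    rw [← hn, h3]
    unfold IC.B
    rw [Nat.card_prod, Fintype.sum_prod_type, Nat.cast_mul, mul_inv, mul_assoc]
    congr 1
    rw [Finset.mul_sum]
    refine Finset.sum_congr rfl fun c _ => ?_
    change (Nat.card Y : ℂ)⁻¹ * (∑ y, F c y * ψ y⁻¹) * μ c⁻¹ = _
    rw [mul_assoc, Finset.sum_mul]
    congr 1
    refine Finset.sum_congr rfl fun y _ => ?_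
    change ρ.character (c, y) * ψ y⁻¹ * μ c⁻¹ = ρ.character (c, y) * (μ c⁻¹ * ψ y⁻¹)
    ring
  choose! n hn using hnat
  have hexpC : ∀ ψ ∈ Irr Y, ∀ c, d ψ c = ∑ μ ∈ Irr C, (n ψ μ : ℂ) * μ c := by
    intro ψ hψ c
    have h1 := congrFun (IC.expand (d ψ) (hclC _)) c
    rw [Finset.sum_apply] at h1
    rw [h1]
    refine Finset.sum_congr rfl fun μ hμ => ?_
    rw [Pi.smul_apply, smul_eq_mul, hn ψ hψ μ hμ]
  have hd1 : ∀ ψ ∈ Irr Y, d ψ 1 = ∑ μ ∈ Irr C, (n ψ μ : ℂ) := by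
    intro ψ hψ
    rw [hexpC ψ hψ]
    refine Finset.sum_congr rfl fun μ hμ => ?_
    rw [irr_one hcomm (mem_Irr.mp hμ), mul_one]
  have hdd : ∀ ψ ∈ Irr Y, ∑ c, d ψ c * d ψ c⁻¹ = p * ∑ μ ∈ Irr C, (n ψ μ : ℂ) ^ 2 := by
    intro ψ hψ
    have h1 : IC.B (d ψ) (d ψ) = ∑ μ ∈ Irr C, (n ψ μ : ℂ) ^ 2 := by
      rw [IC.B_expand _ _ (hclC _)]
      refine Finset.sum_congr rfl fun μ hμ => ?_
      rw [IC.B_comm μ, hn ψ hψ μ hμ, sq]
    rw [← h1]
    unfold IC.B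
    rw [hC, ← mul_assoc, mul_inv_cancel₀ hp0, one_mul]
  let D : (Y → ℂ) → ℤ := fun ψ => (Irr C).card * ∑ μ ∈ Irr C, (n ψ μ : ℤ) ^ 2 -
    (∑ μ ∈ Irr C, (n ψ μ : ℤ)) ^ 2
  have hD : ∀ ψ ∈ Irr Y, ∑ c ∈ Finset.univ.erase (1 : C), d ψ c * d ψ c⁻¹ = (D ψ : ℂ) := by
    intro ψ hψ
    have h1 := Finset.sum_erase_add Finset.univ (fun c => d ψ c * d ψ c⁻¹) (Finset.mem_univ (1 : C))
    rw [hdd ψ hψ, inv_one, hd1 ψ hψ] at h1
    have h2 : (D ψ : ℂ) = p * ∑ μ ∈ Irr C, (n ψ μ : ℂ) ^ 2 - (∑ μ ∈ Irr C, (n ψ μ : ℂ)) ^ 2 := by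
      simp only [D, hcardI]
      push_cast
      ring
    rw [h2, ← h1]
    ring
  have hsum : ∀ c, c ≠ 1 → ∑ ψ ∈ Irr Y, d ψ c * d ψ c⁻¹ = 1 := by
    intro c hc
    have h1 := IC.B_expand (F c) (F c⁻¹) (hclY c)
    have h2 : IC.B (F c) (F c⁻¹) = 1 := by
      unfold IC.B
      rw [Finset.sum_congr rfl fun y _ => h c y hc, Finset.sum_const, Finset.card_univ,
        nsmul_eq_mul, mul_one, ← Nat.card_eq_fintype_card]
      exact inv_mul_cancel₀ IC.cardG_ne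
    rw [← h2, h1]
    refine Finset.sum_congr rfl fun ψ _ => ?_
    rw [IC.B_comm ψ]
  have htot : ∑ ψ ∈ Irr Y, D ψ = (p : ℤ) - 1 := by
    have h1 : ((∑ ψ ∈ Irr Y, D ψ : ℤ) : ℂ) = (p : ℂ) - 1 := by
      push_cast
      rw [← Finset.sum_congr rfl hD, Finset.sum_comm,
        Finset.sum_congr rfl fun c hc => hsum c (Finset.ne_of_mem_erase hc), Finset.sum_const,
        Finset.card_erase_of_mem (Finset.mem_univ _), Finset.card_univ,
        ← Nat.card_eq_fintype_card, hC, nsmul_eq_mul, mul_one, Nat.cast_sub hp.one_le,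
        Nat.cast_one]
    exact_mod_cast h1
  have hp2 : (2 : ℤ) ≤ p := by exact_mod_cast hp.two_le
  have hDdich : ∀ ψ, (∀ μ ∈ Irr C, ∀ ν ∈ Irr C, (n ψ μ : ℤ) = n ψ ν) ∧ D ψ = 0 ∨
      (p : ℤ) - 1 ≤ D ψ := by
    intro ψ
    by_cases hψ : ∀ μ ∈ Irr C, ∀ ν ∈ Irr C, (n ψ μ : ℤ) = n ψ ν
    · exact Or.inl ⟨hψ, gap0 _ _ hψ⟩
    · right
      have := gap (Irr C) (fun μ => (n ψ μ : ℤ)) hψ
      rw [hcardI] at this
      simp only [D, hcardI]
      exact this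
  have hD0 : ∀ ψ, 0 ≤ D ψ := by
    intro ψ
    rcases hDdich ψ with h1 | h1
    · exact h1.2.ge
    · linarith
  obtain ⟨ψ₀, hψ₀, hne⟩ : ∃ ψ ∈ Irr Y, D ψ ≠ 0 := by
    by_contra hcon
    push Not at hcon
    rw [Finset.sum_eq_zero hcon] at htot
    omega
  have hbig : (p : ℤ) - 1 ≤ D ψ₀ := (hDdich ψ₀).resolve_left fun h1 => hne h1.2
  have hoth : ∀ ψ ∈ Irr Y, ψ ≠ ψ₀ → ∀ c, c ≠ 1 → d ψ c = 0 := by
    intro ψ hψ hψne c hc
    rcases hDdich ψ with h1 | h1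
    · rcases (Irr C).eq_empty_or_nonempty with he | ⟨ν, hν⟩
      · rw [hexpC ψ hψ, he, Finset.sum_empty]
      · rw [hexpC ψ hψ, Finset.sum_congr rfl fun μ hμ => by
          rw [show (n ψ μ : ℂ) = n ψ ν by exact_mod_cast h1.1 μ hμ ν hν], ← Finset.mul_sum,
          hreg, if_neg hc, mul_zero]
    · exfalso
      have h2 : D ψ₀ + D ψ ≤ ∑ ψ ∈ Irr Y, D ψ := by
        rw [← Finset.sum_pair hψne.symm]
        refine Finset.sum_le_sum_of_subset_of_nonneg ?_ fun i _ _ => hD0 i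
        intro x hx
        rcases Finset.mem_insert.mp hx with rfl | hx
        · exact hψ₀
        · rw [Finset.mem_singleton.mp hx]
          exact hψ
      rw [htot] at h2
      omega
  have hval : ∀ c y, c ≠ 1 → ρ.character (c, y) = d ψ₀ c * ψ₀ y := by
    intro c y hc
    rw [hexpY, Finset.sum_eq_single ψ₀]
    · intro ψ hψ hψne
      rw [hoth ψ hψ hψne c hc, zero_mul]
    · exact fun h1 => absurd hψ₀ h1
  have hone : ∀ c, c ≠ 1 → d ψ₀ c * d ψ₀ c⁻¹ = 1 := by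
    intro c hc
    rw [← hsum c hc, Finset.sum_eq_single ψ₀]
    · intro ψ hψ hψne
      rw [hoth ψ hψ hψne c hc, zero_mul]
    · exact fun h1 => absurd hψ₀ h1
  have hψ1 : ψ₀ 1 = 1 := by
    obtain ⟨c, hc⟩ : ∃ c : C, c ≠ 1 := by
      haveI : Nontrivial C := by
        rw [← Finite.one_lt_card_iff_nontrivial, hC]
        exact hp.one_lt
      exact exists_ne 1
    have h1 := h c 1 hc
    rw [inv_one, hval c 1 hc, hval c⁻¹ 1 (inv_ne_one.mpr hc)] at h1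
    obtain ⟨m, -, hm⟩ := deg_pos (mem_Irr.mp hψ₀)
    rw [hm] at h1 ⊢
    have h2 : (m : ℂ) * m = 1 := by
      have h3 := hone c hc
      linear_combination h1 - (m : ℂ) * m * h3
    have h3 : m * m = 1 := by exact_mod_cast h2
    rw [Nat.eq_one_of_mul_eq_one_left h3, Nat.cast_one]
  obtain ⟨l, hl⟩ := lin_hom (mem_Irr.mp hψ₀) hψ1
  refine ⟨l, d ψ₀, fun c y hc => ⟨left_ne_zero_of_mul_eq_one (hone c hc), ?_⟩⟩
  rw [hval c y hc, hl]

end Pool.Agent.K3h57.IN
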